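import Mathlib

/-! Finite checks for the switching classes of tournaments on 4 and 6 vertices. -/

set_option autoImplicit false

namespace Pool.Agent.H63ZT

/-- The table of the `144` switching-normalised tournaments on six vertices whose skew matrix has
Pfaffian `±5`. -/
def N6 : ℕ :=
  87780663886267779563809074626545116146209779194932294688387819533030670020699000143529544518495406045377900814361661680338796712234177086008272999496340270184271098592945600011560977821588636915043907797702000980827195008640571456380879068715436109384003566902753706350900740752802551588178976254285841408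

/-- bit to number -/
def b2n (b : Bool) : ℕ := cond b 1 0

/-- The rule on six vertices. -/
def T6 (a b c d e f g h i j : Bool) : Bool :=
  Nat.testBit N6 (b2n a + 2 * (b2n b + 2 * (b2n c + 2 * (b2n d + 2 * (b2n e + 2 * (b2n f +
    2 * (b2n g + 2 * (b2n h + 2 * (b2n i + 2 * b2n j)))))))))

/-- number of true values -/
def cnt7 (a b c d e f g : Bool) : ℕ :=
  b2n a + (b2n b + (b2n c + (b2n d + (b2n e + (b2n f + b2n g)))))

/-- The seven faces of a seven vertex configuration with normalised bits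
`t_{ij}`, `1 ≤ i < j ≤ 6`. -/
def chk (t12 t13 t14 t15 t16 t23 t24 t25 t26 t34 t35 t36 t45 t46 t56 : Bool) : ℕ :=
  cnt7
    (T6 (t12 ^^ t13 ^^ t23) (t12 ^^ t14 ^^ t24) (t12 ^^ t15 ^^ t25) (t12 ^^ t16 ^^ t26)
      (t13 ^^ t14 ^^ t34) (t13 ^^ t15 ^^ t35) (t13 ^^ t16 ^^ t36)
      (t14 ^^ t15 ^^ t45) (t14 ^^ t16 ^^ t46) (t15 ^^ t16 ^^ t56))
    (T6 t23 t24 t25 t26 t34 t35 t36 t45 t46 t56)
    (T6 t13 t14 t15 t16 t34 t35 t36 t45 t46 t56)
    (T6 t12 t14 t15 t16 t24 t25 t26 t45 t46 t56)
    (T6 t12 t13 t15 t16 t23 t25 t26 t35 t36 t56)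
    (T6 t12 t13 t14 t16 t23 t24 t26 t34 t36 t46)
    (T6 t12 t13 t14 t15 t23 t24 t25 t34 t35 t45)

theorem chk_adm_aux : ∀ t12 t13 t14 t15 t16 t23 t24 t25 t26 t34 : Bool,
    ∀ t35 t36 t45 t46 t56 : Bool,
    (chk t12 t13 t14 t15 t16 t23 t24 t25 t26 t34 t35 t36 t45 t46 t56 == 0 ||
    chk t12 t13 t14 t15 t16 t23 t24 t25 t26 t34 t35 t36 t45 t46 t56 == 2) = true := by
  decide +kernel

end Pool.Agent.H63ZT
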