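import Mathlib
import Pool.Agent.H63.ZT.Tab

/-! Local rules for families in which every `(k+1)`-set spans `0` or `2` edges, and their cup
product. -/

set_option autoImplicit false

namespace Pool.Agent.H63ZT

open Finset

/-- Delete the `i`-th entry of a sequence. -/
def face {V : Type*} (i : ℕ) (x : ℕ → V) : ℕ → V := fun j => if j < i then x j else x (j + 1)

/-- A local rule of uniformity `k`: it decides for every sequence of `k` vertices whether it is an
edge, in such a way that of the `k + 1` faces of a sequence of `k + 1` vertices exactly `0` or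
exactly `2` are edges. -/
structure Rule (V : Type*) (k : ℕ) where
  P : (ℕ → V) → Bool
  loc : ∀ x y : ℕ → V, (∀ j < k, x j = y j) → P x = P y
  adm : ∀ x : ℕ → V, (∑ i ∈ range (k + 1), b2n (P (face i x))) = 0 ∨
    (∑ i ∈ range (k + 1), b2n (P (face i x))) = 2

/-- The cup product of two rules. -/
def Rule.cup {V : Type*} {p q : ℕ} (R : Rule V (p + 1)) (S : Rule V (q + 1)) :
    Rule V (p + q + 1) where
  P x := R.P x && S.P (fun j => x (j + p))
  loc x y h := by
    rw [R.loc x y (fun j hj => h j (by omega)), S.loc _ _ (fun j hj => h (j + p) (by omega))]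
  adm x := by
    have e0 : p + q + 1 + 1 = (p + 1) + (q + 1) := by ring
    rw [e0, Finset.sum_range_add]
    have h1 : ∀ i ∈ range (p + 1), b2n (R.P (face i x) && S.P (fun j => face i x (j + p))) =
        b2n (R.P (face i x)) * b2n (S.P (fun j => x (j + 1 + p))) := by
      intro i hi
      rw [mem_range] at hi
      have e1 : (fun j => face i x (j + p)) = fun j => x (j + 1 + p) := by
        funext j
        unfold face
        rw [if_neg (by omega)]
        congr 1
        omega
      rw [e1]
      cases R.P (face i x) <;> cases S.P (fun j => x (j + 1 + p)) <;> rfl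
    have h2 : ∀ i ∈ range (q + 1), b2n (R.P (face (p + 1 + i) x) &&
        S.P (fun j => face (p + 1 + i) x (j + p))) =
        b2n (R.P x) * b2n (S.P (face (i + 1) (fun j => x (j + p)))) := by
      intro i _
      have e1 : (fun j => face (p + 1 + i) x (j + p)) = face (i + 1) (fun j => x (j + p)) := by
        funext j
        unfold face
        by_cases hj : j < i + 1
        · rw [if_pos (by omega), if_pos hj]
        · rw [if_neg (by omega), if_neg hj]
          congr 1
          omega
      have e2 : R.P (face (p + 1 + i) x) = R.P x := by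
        apply R.loc
        intro j hj
        unfold face
        rw [if_pos (by omega)]
      rw [e1, e2]
      cases R.P x <;> cases S.P (face (i + 1) (fun j => x (j + p))) <;> rfl
    rw [Finset.sum_congr rfl h1, Finset.sum_congr rfl h2, ← Finset.sum_mul, ← Finset.mul_sum]
    have hR := R.adm x
    rw [Finset.sum_range_succ] at hR
    have e3 : R.P (face (p + 1) x) = R.P x := by
      apply R.loc
      intro j hj
      unfold face
      rw [if_pos (by omega)]
    rw [e3] at hR
    have hS := S.adm (fun j => x (j + p))
    rw [Finset.sum_range_succ'] at hS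
    have e4 : face 0 (fun j => x (j + p)) = fun j => x (j + 1 + p) := by
      funext j
      unfold face
      rw [if_neg (by omega)]
    rw [e4] at hS
    clear h1 h2 e3 e4
    generalize (∑ i ∈ range (p + 1), b2n (R.P (face i x))) = A at hR ⊢
    generalize (∑ i ∈ range (q + 1), b2n (S.P (face (i + 1) (fun j => x (j + p))))) = B at hS ⊢
    generalize R.P x = α at hR ⊢
    generalize S.P (fun j => x (j + 1 + p)) = β at hS ⊢
    have b0 : b2n false = 0 := rfl
    have b1 : b2n true = 1 := rfl
    cases α <;> cases β <;> simp only [b0, b1, mul_zero, mul_one, zero_mul,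
      one_mul, add_zero, zero_add] at hR hS ⊢ <;> first | exact Or.inl trivial | omega

/-- A family of rules indexed by a finite probability space such that every increasing sequence
of `k` vertices is an edge with probability at least `a / b`. -/
def Dense (n k a b : ℕ) : Prop :=
  ∃ (Ω : Type) (_ : Fintype Ω) (_ : Nonempty Ω) (R : Ω → Rule (Fin n) k),
    ∀ x : ℕ → Fin n, (∀ i j, i < j → j < k → x i < x j) →
      a * Fintype.card Ω ≤ b * (univ.filter fun ω => (R ω).P x = true).card

theorem Dense.cup {n p q a b c d : ℕ} (h : Dense n (p + 1) a b) (h' : Dense n (q + 1) c d) :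
    Dense n (p + q + 1) (a * c) (b * d) := by
  obtain ⟨Ω, i1, i2, R, hR⟩ := h
  obtain ⟨Ω', i1', i2', R', hR'⟩ := h'
  refine ⟨Ω × Ω', inferInstance, inferInstance, fun ω => (R ω.1).cup (R' ω.2), ?_⟩
  intro x hx
  have h1 := hR x (by
    intro i j hij hj
    exact hx i j hij (by omega))
  have h2 := hR' (fun j => x (j + p)) (by
    intro i j hij hj
    exact hx (i + p) (j + p) (by omega) (by omega))
  have e : (univ.filter fun ω : Ω × Ω' => ((R ω.1).cup (R' ω.2)).P x = true) =
      (univ.filter fun ω => (R ω).P x = true) ×ˢ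
        (univ.filter fun ω => (R' ω).P (fun j => x (j + p)) = true) := by
    ext ω
    simp only [Rule.cup, Bool.and_eq_true, mem_filter, mem_univ, true_and, mem_product]
  rw [e, card_product, Fintype.card_prod]
  calc a * c * (Fintype.card Ω * Fintype.card Ω')
      = (a * Fintype.card Ω) * (c * Fintype.card Ω') := by ring
    _ ≤ (b * (univ.filter fun ω => (R ω).P x = true).card) *
        (d * (univ.filter fun ω => (R' ω).P (fun j => x (j + p)) = true).card) :=
      Nat.mul_le_mul h1 h2
    _ = _ := by ring

/-! ### From rules to families -/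

/-- The increasing enumeration of `E`, continued by `d`. -/
noncomputable def sq {n : ℕ} (d : Fin n) (E : Finset (Fin n)) : ℕ → Fin n :=
  fun j => if h : j < E.card then E.orderEmbOfFin rfl ⟨j, h⟩ else d

lemma sq_mem {n : ℕ} (d : Fin n) (E : Finset (Fin n)) {j : ℕ} (hj : j < E.card) :
    sq d E j ∈ E := by
  unfold sq
  rw [dif_pos hj]
  exact Finset.orderEmbOfFin_mem _ _ _

lemma sq_lt {n : ℕ} (d : Fin n) (E : Finset (Fin n)) {i j : ℕ} (hij : i < j) (hj : j < E.card) :
    sq d E i < sq d E j := by
  unfold sq
  rw [dif_pos hj, dif_pos (hij.trans hj)]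
  exact (E.orderEmbOfFin rfl).lt_iff_lt.mpr (by rw [Fin.mk_lt_mk]; exact hij)

lemma sq_eq {n : ℕ} (d : Fin n) (E : Finset (Fin n)) (f : ℕ → Fin n)
    (hf : ∀ j < E.card, f j ∈ E) (hm : ∀ i j, i < j → j < E.card → f i < f j) {j : ℕ}
    (hj : j < E.card) : sq d E j = f j := by
  have h := Finset.orderEmbOfFin_unique (s := E) (k := E.card) rfl (f := fun i => f i)
    (fun i => hf i i.2) (fun i j hij => hm i j hij j.2)
  unfold sq
  rw [dif_pos hj]
  exact (congrFun h ⟨j, hj⟩).symm

lemma sq_surj {n : ℕ} (d : Fin n) (E : Finset (Fin n)) {v : Fin n} (hv : v ∈ E) :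
    ∃ j < E.card, sq d E j = v := by
  have h : v ∈ Set.range (E.orderEmbOfFin rfl) := by
    rw [Finset.range_orderEmbOfFin]
    exact hv
  obtain ⟨j, hj⟩ := h
  refine ⟨j, j.2, ?_⟩
  unfold sq
  rw [dif_pos j.2]
  exact hj

lemma sq_erase {n : ℕ} (d : Fin n) (S : Finset (Fin n)) {k i : ℕ} (hS : S.card = k + 1)
    (hi : i < k + 1) {j : ℕ} (hj : j < k) :
    sq d (S.erase (sq d S i)) j = face i (sq d S) j := by
  have hc : (S.erase (sq d S i)).card = k := by
    rw [Finset.card_erase_of_mem (sq_mem d S (by omega)), hS]
    rfl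
  refine sq_eq d _ _ ?_ ?_ (by omega)
  · intro j hj
    rw [hc] at hj
    rw [Finset.mem_erase]
    unfold face
    by_cases h : j < i
    · rw [if_pos h]
      exact ⟨(sq_lt d S h (by omega)).ne, sq_mem d S (by omega)⟩
    · rw [if_neg h]
      exact ⟨(sq_lt d S (show i < j + 1 by omega) (by omega)).ne', sq_mem d S (by omega)⟩
  · intro a b hab hb
    rw [hc] at hb
    unfold face
    split_ifs
    · exact sq_lt d S hab (by omega)
    · exact sq_lt d S (by omega) (by omega)
    · omega
    · exact sq_lt d S (by omega) (by omega)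

lemma sum_b2n {ι : Type*} (s : Finset ι) (f : ι → Bool) :
    ∑ i ∈ s, b2n (f i) = (s.filter fun i => f i = true).card := by
  rw [Finset.card_filter]
  refine Finset.sum_congr rfl fun i _ => ?_
  cases f i <;> rfl

/-- The family defined by a rule. -/
noncomputable def fam {n k : ℕ} (d : Fin n) (R : Rule (Fin n) k) : Finset (Finset (Fin n)) :=
  (powersetCard k univ).filter fun E => R.P (sq d E) = true

lemma fam_adm {n k : ℕ} (d : Fin n) (R : Rule (Fin n) k) (S : Finset (Fin n))
    (hS : S.card = k + 1) :
    ((fam d R).filter fun E => E ⊆ S).card = 0 ∨ ((fam d R).filter fun E => E ⊆ S).card = 2 := by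
  have key : ((fam d R).filter fun E => E ⊆ S).card =
      ∑ i ∈ range (k + 1), b2n (R.P (face i (sq d S))) := by
    rw [sum_b2n]
    symm
    refine Finset.card_bij (fun i _ => S.erase (sq d S i)) ?_ ?_ ?_
    · intro i hi
      rw [mem_filter, mem_range] at hi
      have hc : (S.erase (sq d S i)).card = k := by
        rw [Finset.card_erase_of_mem (sq_mem d S (by omega)), hS]
        rfl
      rw [mem_filter, fam, mem_filter, mem_powersetCard]
      refine ⟨⟨⟨subset_univ _, hc⟩, ?_⟩, erase_subset _ _⟩
      rw [R.loc _ _ (fun j hj => sq_erase d S hS hi.1 hj)]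
      exact hi.2
    · intro i hi j hj hij
      rw [mem_filter, mem_range] at hi hj
      by_contra hne
      have hmem : ∀ a b : ℕ, a < k + 1 → b < k + 1 → a ≠ b →
          S.erase (sq d S a) ≠ S.erase (sq d S b) := by
        intro a b ha hb hab h
        have h1 : sq d S a ∈ S.erase (sq d S b) := by
          rw [mem_erase]
          refine ⟨?_, sq_mem d S (by omega)⟩
          rcases lt_or_gt_of_ne hab with h2 | h2
          · exact (sq_lt d S h2 (by omega)).ne
          · exact (sq_lt d S h2 (by omega)).ne'
        rw [← h] at h1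
        exact (notMem_erase _ _) h1
      exact hmem i j hi.1 hj.1 hne hij
    · intro E hE
      rw [mem_filter, fam, mem_filter, mem_powersetCard] at hE
      obtain ⟨⟨⟨-, hc⟩, hP⟩, hES⟩ := hE
      have h1 : (S \ E).card = 1 := by
        rw [card_sdiff_of_subset hES, hS, hc]
        omega
      obtain ⟨v, hv⟩ := card_eq_one.mp h1
      have hvS : v ∈ S := (mem_sdiff.mp (by rw [hv]; exact mem_singleton_self v)).1
      obtain ⟨i, hi, hiv⟩ := sq_surj d S hvS
      have hE : S.erase v = E := by
        rw [← sdiff_singleton_eq_erase, ← hv, _root_.sdiff_sdiff_eq_self hES]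
      refine ⟨i, ?_, ?_⟩
      · rw [mem_filter, mem_range]
        refine ⟨by omega, ?_⟩
        rw [← R.loc _ _ (fun j hj => sq_erase d S hS (by omega) hj), hiv, hE]
        exact hP
      · simp only [hiv]
        exact hE
  rw [key]
  exact R.adm _

/-- From a dense family of rules to a large admissible family. -/
theorem exists_fam {n k a b : ℕ} (hk : 1 ≤ k) (hkn : k ≤ n) (h : Dense n k a b) :
    ∃ H : Finset (Finset (Fin n)), (∀ E ∈ H, E.card = k) ∧
      (∀ S : Finset (Fin n), S.card = k + 1 →
        (H.filter fun E => E ⊆ S).card = 0 ∨ (H.filter fun E => E ⊆ S).card = 2) ∧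
      a * n.choose k ≤ b * H.card := by
  obtain ⟨Ω, i1, i2, R, hR⟩ := h
  have d : Fin n := ⟨0, by omega⟩
  have hdc : ∑ ω : Ω, (fam d (R ω)).card =
      ∑ E ∈ powersetCard k (univ : Finset (Fin n)),
        (univ.filter fun ω => (R ω).P (sq d E) = true).card := by
    simp only [fam, card_filter]
    exact Finset.sum_comm
  have hle : Fintype.card Ω * (a * n.choose k) ≤ ∑ ω : Ω, b * (fam d (R ω)).card := by
    rw [← Finset.mul_sum, hdc, Finset.mul_sum]
    have h1 : ∀ E ∈ powersetCard k (univ : Finset (Fin n)), a * Fintype.card Ω ≤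
        b * (univ.filter fun ω => (R ω).P (sq d E) = true).card := by
      intro E hE
      rw [mem_powersetCard] at hE
      exact hR (sq d E) (fun i j hij hj => sq_lt d E hij (by omega))
    have h2 := Finset.sum_le_sum h1
    rw [Finset.sum_const, card_powersetCard, Finset.card_univ, Fintype.card_fin,
      smul_eq_mul] at h2
    calc Fintype.card Ω * (a * n.choose k) = n.choose k * (a * Fintype.card Ω) := by ring
      _ ≤ _ := h2
  obtain ⟨ω, hω⟩ : ∃ ω : Ω, a * n.choose k ≤ b * (fam d (R ω)).card := by
    by_contra hcon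
    push Not at hcon
    have h3 : ∑ ω : Ω, b * (fam d (R ω)).card < ∑ _ω : Ω, a * n.choose k :=
      Finset.sum_lt_sum_of_nonempty (univ_nonempty) (fun ω _ => hcon ω)
    rw [Finset.sum_const, Finset.card_univ, smul_eq_mul] at h3
    omega
  refine ⟨fam d (R ω), ?_, fun S hS => fam_adm d (R ω) S hS, hω⟩
  intro E hE
  rw [fam, mem_filter, mem_powersetCard] at hE
  exact hE.1.2

end Pool.Agent.H63ZT
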