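import Mathlib
import Pool.Agent.H63.ZT.Core

/-! The basic rules: uniformities `1`, `2` (two colours), `3` (the six vertex projective plane),
`4` and `6` (tournaments). -/

set_option autoImplicit false

namespace Pool.Agent.H63ZT

open Finset

/-- Value of a bit. -/
def bit (a : ZMod 2) : Bool := decide (a = 1)

lemma bit_add (a b : ZMod 2) : bit (a + b) = (bit a ^^ bit b) := by
  revert a b; decide

/-- All fibres of a surjective homomorphism have the same size. -/
lemma card_preimage {G K : Type*} [AddCommGroup G] [Fintype G] [AddCommGroup K] [Fintype K]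
    (φ : G →+ K) (hφ : Function.Surjective φ) (T : K → Bool) :
    (univ.filter fun g => T (φ g) = true).card * Fintype.card K =
      (univ.filter fun κ => T κ = true).card * Fintype.card G := by
  classical
  have hf : ∀ κ : K, (univ.filter fun g => φ g = κ).card = (univ.filter fun g => φ g = 0).card :=
    fun κ => AddMonoidHom.card_fiber_eq_of_mem_range φ (hφ κ) (hφ 0)
  have h1 : Fintype.card G = Fintype.card K * (univ.filter fun g => φ g = 0).card := by
    rw [← Finset.card_univ, Finset.card_eq_sum_card_fiberwise (f := φ) (t := univ)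
      (fun _ _ => Finset.mem_coe.mpr (mem_univ _)), Finset.sum_congr rfl (fun κ _ => hf κ),
      Finset.sum_const, Finset.card_univ, smul_eq_mul]
  have h2 : (univ.filter fun g => T (φ g) = true).card =
      (univ.filter fun κ => T κ = true).card * (univ.filter fun g => φ g = 0).card := by
    rw [Finset.card_eq_sum_card_fiberwise (f := φ) (t := univ.filter fun κ => T κ = true)]
    · rw [Finset.sum_congr rfl (g := fun _ => (univ.filter fun g => φ g = 0).card),
        Finset.sum_const, smul_eq_mul]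
      intro κ hκ
      rw [mem_filter] at hκ
      rw [← hf κ, Finset.filter_filter]
      congr 1
      ext g
      simp only [mem_filter, mem_univ, true_and]
      constructor
      · exact fun h => h.2
      · intro h
        exact ⟨by rw [h]; exact hκ.2, h⟩
    · intro g hg
      have hg' := (mem_filter.mp (Finset.mem_coe.mp hg)).2
      exact Finset.mem_coe.mpr (mem_filter.mpr ⟨mem_univ _, hg'⟩)
  rw [h2, h1]
  ring

/-- If the rules `R ω` depend on `ω` through a surjective homomorphism. -/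
lemma dense_of {n k a b : ℕ} {G : Type} {K : Type} [AddCommGroup G] [Fintype G]
    [AddCommGroup K] [Fintype K] (R : G → Rule (Fin n) k) (T : K → Bool)
    (hφ : ∀ x : ℕ → Fin n, (∀ i j, i < j → j < k → x i < x j) →
      ∃ φ : G →+ K, Function.Surjective φ ∧ ∀ g, (R g).P x = T (φ g))
    (hT : a * Fintype.card K ≤ b * (univ.filter fun κ => T κ = true).card) : Dense n k a b := by
  refine ⟨G, inferInstance, inferInstance, R, fun x hx => ?_⟩
  obtain ⟨φ, hs, hg⟩ := hφ x hx
  simp only [hg]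
  have h1 := card_preimage φ hs T
  have hK : 0 < Fintype.card K := Fintype.card_pos
  have h2 : (a * Fintype.card G) * Fintype.card K ≤
      (b * (univ.filter fun g => T (φ g) = true).card) * Fintype.card K := by
    calc (a * Fintype.card G) * Fintype.card K = (a * Fintype.card K) * Fintype.card G := by ring
      _ ≤ (b * (univ.filter fun κ => T κ = true).card) * Fintype.card G :=
        Nat.mul_le_mul_right _ hT
      _ = b * ((univ.filter fun κ => T κ = true).card * Fintype.card G) := by ring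
      _ = b * ((univ.filter fun g => T (φ g) = true).card * Fintype.card K) := by rw [h1]
      _ = _ := by ring
  exact Nat.le_of_mul_le_mul_right h2 hK

/-! ### Uniformity 1 -/

/-- All points. -/
def rule1 (V : Type*) : Rule V 1 where
  P _ := true
  loc _ _ _ := rfl
  adm _ := Or.inr rfl

lemma dense1 (n : ℕ) : Dense n 1 1 1 := by
  refine ⟨Unit, inferInstance, inferInstance, fun _ => rule1 _, fun x _ => ?_⟩
  simp [rule1]

/-! ### Uniformity 2 -/

/-- The complete bipartite graph of a two-colouring. -/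
def rule2 {V : Type*} (ω : V → ZMod 2) : Rule V 2 where
  P x := bit (ω (x 0) + ω (x 1))
  loc x y h := by rw [h 0 (by norm_num), h 1 (by norm_num)]
  adm x := by
    simp only [Finset.sum_range_succ, Finset.sum_range_zero, face]
    simp only [Nat.reduceAdd, Nat.reduceLT, if_true, if_false, Nat.lt_irrefl, not_lt_zero,
      zero_add, Nat.zero_lt_one, Nat.one_lt_two]
    generalize ω (x 0) = a
    generalize ω (x 1) = b
    generalize ω (x 2) = c
    revert a b c
    decide

lemma exists_pos {n k : ℕ} {x : ℕ → Fin n} (hx : ∀ i j, i < j → j < k → x i < x j) :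
    ∃ pos : Fin n → ℕ, ∀ i < k, pos (x i) = i := by
  classical
  refine ⟨fun v => if h : ∃ i < k, x i = v then h.choose else 0, fun i hi => ?_⟩
  have h : ∃ j < k, x j = x i := ⟨i, hi, rfl⟩
  beta_reduce
  rw [dif_pos h]
  have h1 := h.choose_spec
  rcases lt_trichotomy h.choose i with h2 | h2 | h2
  · exact absurd h1.2 (hx _ _ h2 hi).ne
  · exact h2
  · exact absurd h1.2 (hx _ _ h2 h1.1).ne'

lemma dense2 (n : ℕ) : Dense n 2 1 2 := by
  refine dense_of (G := Fin n → ZMod 2) (K := ZMod 2) (fun ω => rule2 ω) bit (fun x hx => ?_)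
    (by decide)
  obtain ⟨pos, hpos⟩ := exists_pos hx
  refine ⟨AddMonoidHom.mk' (fun g => g (x 0) + g (x 1)) (fun g h => ?_), fun κ => ?_,
    fun g => rfl⟩
  · simp only [Pi.add_apply]; ring
  · refine ⟨fun v => if pos v = 1 then κ else 0, ?_⟩
    simp only [AddMonoidHom.mk'_apply, hpos 0 (by norm_num), hpos 1 (by norm_num)]
    simp

/-! ### Uniformity 3 -/

/-- Incidence table of the ten triangles of the six vertex projective plane. -/
def N3 : ℕ := 79206468143166111503716283143496017589449387132595861589664512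

/-- The triangles of the six vertex projective plane (symmetric in the arguments). -/
def tri (a b c : ZMod 6) : Bool := Nat.testBit N3 (a.val + 6 * (b.val + 6 * c.val))

/-- Blow-up of the six vertex projective plane. -/
def rule3 {V : Type*} (ω : V → ZMod 6) : Rule V 3 where
  P x := tri (ω (x 0)) (ω (x 1)) (ω (x 2))
  loc x y h := by rw [h 0 (by norm_num), h 1 (by norm_num), h 2 (by norm_num)]
  adm x := by
    simp only [Finset.sum_range_succ, Finset.sum_range_zero, face]
    simp only [Nat.reduceAdd, Nat.reduceLT, if_true, if_false, Nat.lt_irrefl, not_lt_zero,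
      zero_add, Nat.zero_lt_one, Nat.one_lt_two]
    generalize ω (x 0) = a
    generalize ω (x 1) = b
    generalize ω (x 2) = c
    generalize ω (x 3) = d
    revert a b c d
    decide +kernel

lemma dense3 (n : ℕ) : Dense n 3 5 18 := by
  refine dense_of (G := Fin n → ZMod 6) (K := ZMod 6 × ZMod 6 × ZMod 6) (fun ω => rule3 ω)
    (fun κ => tri κ.1 κ.2.1 κ.2.2) (fun x hx => ?_) (by decide +kernel)
  obtain ⟨pos, hpos⟩ := exists_pos hx
  refine ⟨AddMonoidHom.mk' (fun g => (g (x 0), g (x 1), g (x 2))) (fun g h => rfl), fun κ => ?_,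
    fun g => rfl⟩
  obtain ⟨a, b, c⟩ := κ
  refine ⟨fun v => if pos v = 0 then a else if pos v = 1 then b else c, ?_⟩
  simp only [AddMonoidHom.mk'_apply, hpos 0 (by norm_num), hpos 1 (by norm_num),
    hpos 2 (by norm_num)]
  simp

/-! ### Uniformities 4 and 6: tournaments -/

/-- The switching cocycle. -/
def tau {V : Type*} (ω : V → V → ZMod 2) (u v w : V) : ZMod 2 := ω u v + ω u w + ω v w

lemma bit_coc {V : Type*} (ω : V → V → ZMod 2) (a u v w : V) :
    bit (tau ω u v w) = (bit (tau ω a u v) ^^ bit (tau ω a u w) ^^ bit (tau ω a v w)) := by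
  unfold tau
  generalize ω a u = c1
  generalize ω a v = c2
  generalize ω a w = c3
  generalize ω u v = c4
  generalize ω u w = c5
  generalize ω v w = c6
  revert c1 c2 c3 c4 c5 c6
  decide

/-- Four vertices: the diamonds. -/
def T4 (a b c : Bool) : Bool := (a == c) && (a != b)

lemma T4_adm : ∀ t12 t13 t14 t23 t24 t34 : Bool,
    b2n (T4 (t12 ^^ t13 ^^ t23) (t12 ^^ t14 ^^ t24) (t13 ^^ t14 ^^ t34)) +
      b2n (T4 t23 t24 t34) + b2n (T4 t13 t14 t34) + b2n (T4 t12 t14 t24) +
      b2n (T4 t12 t13 t23) = 0 ∨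
    b2n (T4 (t12 ^^ t13 ^^ t23) (t12 ^^ t14 ^^ t24) (t13 ^^ t14 ^^ t34)) +
      b2n (T4 t23 t24 t34) + b2n (T4 t13 t14 t34) + b2n (T4 t12 t14 t24) +
      b2n (T4 t12 t13 t23) = 2 := by
  decide

/-- application helper -/
def kap (m : ℕ → ℕ → ZMod 2) (p q : ℕ) : ZMod 2 := m p q

/-- The four vertex rule. -/
def rule4 {V : Type*} (ω : V → V → ZMod 2) : Rule V 4 where
  P x := T4 (bit (tau ω (x 0) (x 1) (x 2))) (bit (tau ω (x 0) (x 1) (x 3)))
    (bit (tau ω (x 0) (x 2) (x 3)))
  loc x y h := by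
    rw [h 0 (by norm_num), h 1 (by norm_num), h 2 (by norm_num), h 3 (by norm_num)]
  adm x := by
    simp only [Finset.sum_range_succ, Finset.sum_range_zero, face]
    simp only [Nat.reduceAdd, Nat.reduceLT, if_true, if_false, Nat.lt_irrefl, not_lt_zero,
      zero_add, Nat.lt_add_one]
    rw [bit_coc ω (x 0) (x 1) (x 2) (x 3), bit_coc ω (x 0) (x 1) (x 2) (x 4),
      bit_coc ω (x 0) (x 1) (x 3) (x 4)]
    exact T4_adm _ _ _ _ _ _

lemma dense4 (n : ℕ) : Dense n 4 1 4 := by
  refine dense_of (G := Fin n → Fin n → ZMod 2) (K := ZMod 2 × ZMod 2 × ZMod 2)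
    (fun ω => rule4 ω) (fun κ => T4 (bit κ.1) (bit κ.2.1) (bit κ.2.2)) (fun x hx => ?_)
    (by decide +kernel)
  obtain ⟨pos, hpos⟩ := exists_pos hx
  refine ⟨AddMonoidHom.mk' (fun g => (tau g (x 0) (x 1) (x 2), tau g (x 0) (x 1) (x 3),
    tau g (x 0) (x 2) (x 3))) (fun g h => ?_), fun κ => ?_, fun g => rfl⟩
  · simp only [tau, Pi.add_apply, Prod.mk_add_mk, Prod.mk.injEq]
    refine ⟨?_, ?_, ?_⟩ <;> ring
  obtain ⟨a, b, c⟩ := κ
  refine ⟨fun u v => kap (fun i j => match i, j with
    | 1, 2 => a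
    | 1, 3 => b
    | 2, 3 => c
    | _, _ => 0) (pos u) (pos v), ?_⟩
  simp only [AddMonoidHom.mk'_apply, tau, kap, hpos 0 (by norm_num), hpos 1 (by norm_num),
    hpos 2 (by norm_num), hpos 3 (by norm_num), zero_add]

/-- The six vertex rule. -/
def rule6 {V : Type*} (ω : V → V → ZMod 2) : Rule V 6 where
  P x := T6 (bit (tau ω (x 0) (x 1) (x 2))) (bit (tau ω (x 0) (x 1) (x 3))) (bit (tau ω (x 0) (x 1) (x 4))) (bit (tau ω (x 0) (x 1) (x 5))) (bit (tau ω (x 0) (x 2) (x 3))) (bit (tau ω (x 0) (x 2) (x 4))) (bit (tau ω (x 0) (x 2) (x 5))) (bit (tau ω (x 0) (x 3) (x 4))) (bit (tau ω (x 0) (x 3) (x 5))) (bit (tau ω (x 0) (x 4) (x 5)))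
  loc x y h := by
    rw [h 0 (by norm_num), h 1 (by norm_num), h 2 (by norm_num), h 3 (by norm_num), h 4 (by norm_num), h 5 (by norm_num)]
  adm x := by
    simp only [Finset.sum_range_succ, Finset.sum_range_zero, face]
    simp only [Nat.reduceAdd, Nat.reduceLT, if_true, if_false, Nat.lt_irrefl, not_lt_zero,
      zero_add, Nat.lt_add_one]
    rw [bit_coc ω (x 0) (x 1) (x 2) (x 3),
      bit_coc ω (x 0) (x 1) (x 2) (x 4),
      bit_coc ω (x 0) (x 1) (x 2) (x 5),
      bit_coc ω (x 0) (x 1) (x 2) (x 6),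
      bit_coc ω (x 0) (x 1) (x 3) (x 4),
      bit_coc ω (x 0) (x 1) (x 3) (x 5),
      bit_coc ω (x 0) (x 1) (x 3) (x 6),
      bit_coc ω (x 0) (x 1) (x 4) (x 5),
      bit_coc ω (x 0) (x 1) (x 4) (x 6),
      bit_coc ω (x 0) (x 1) (x 5) (x 6)]
    have h := chk_adm_aux (bit (tau ω (x 0) (x 1) (x 2))) (bit (tau ω (x 0) (x 1) (x 3))) (bit (tau ω (x 0) (x 1) (x 4))) (bit (tau ω (x 0) (x 1) (x 5))) (bit (tau ω (x 0) (x 1) (x 6))) (bit (tau ω (x 0) (x 2) (x 3))) (bit (tau ω (x 0) (x 2) (x 4))) (bit (tau ω (x 0) (x 2) (x 5))) (bit (tau ω (x 0) (x 2) (x 6))) (bit (tau ω (x 0) (x 3) (x 4))) (bit (tau ω (x 0) (x 3) (x 5))) (bit (tau ω (x 0) (x 3) (x 6))) (bit (tau ω (x 0) (x 4) (x 5))) (bit (tau ω (x 0) (x 4) (x 6))) (bit (tau ω (x 0) (x 5) (x 6)))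
    simp only [Bool.or_eq_true, beq_iff_eq, chk, cnt7] at h
    omega

lemma dense6 (n : ℕ) : Dense n 6 9 64 := by
  refine dense_of (G := Fin n → Fin n → ZMod 2)
    (K := ZMod 2 × ZMod 2 × ZMod 2 × ZMod 2 × ZMod 2 × ZMod 2 × ZMod 2 × ZMod 2 × ZMod 2 × ZMod 2)
    (fun ω => rule6 ω) (fun κ => T6 (bit κ.1) (bit κ.2.1) (bit κ.2.2.1) (bit κ.2.2.2.1)
      (bit κ.2.2.2.2.1) (bit κ.2.2.2.2.2.1) (bit κ.2.2.2.2.2.2.1) (bit κ.2.2.2.2.2.2.2.1)
      (bit κ.2.2.2.2.2.2.2.2.1) (bit κ.2.2.2.2.2.2.2.2.2)) (fun x hx => ?_)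
    (by decide +kernel)
  obtain ⟨pos, hpos⟩ := exists_pos hx
  refine ⟨AddMonoidHom.mk' (fun g => (tau g (x 0) (x 1) (x 2), tau g (x 0) (x 1) (x 3), tau g (x 0) (x 1) (x 4), tau g (x 0) (x 1) (x 5), tau g (x 0) (x 2) (x 3), tau g (x 0) (x 2) (x 4), tau g (x 0) (x 2) (x 5), tau g (x 0) (x 3) (x 4), tau g (x 0) (x 3) (x 5), tau g (x 0) (x 4) (x 5))) (fun g h => ?_), fun κ => ?_, fun g => rfl⟩
  · simp only [tau, Pi.add_apply, Prod.mk_add_mk, Prod.mk.injEq]
    refine ⟨?_, ?_, ?_, ?_, ?_, ?_, ?_, ?_, ?_, ?_⟩ <;> ring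
  obtain ⟨a, b, c, d, e, f, g, h, i, j⟩ := κ
  refine ⟨fun u v => kap (fun p q => match p, q with
    | 1, 2 => a
    | 1, 3 => b
    | 1, 4 => c
    | 1, 5 => d
    | 2, 3 => e
    | 2, 4 => f
    | 2, 5 => g
    | 3, 4 => h
    | 3, 5 => i
    | 4, 5 => j
    | _, _ => 0) (pos u) (pos v), ?_⟩
  simp only [AddMonoidHom.mk'_apply, tau, kap, hpos 0 (by norm_num), hpos 1 (by norm_num),
    hpos 2 (by norm_num), hpos 3 (by norm_num), hpos 4 (by norm_num), hpos 5 (by norm_num),
    zero_add]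

end Pool.Agent.H63ZT
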